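import Pool.Agent.R479.DA.Frac

/-!
# Oesterlé's weak form of the abc conjecture at the approximations of a real number

There is a set `E` of real numbers of Hausdorff dimension zero such that for every `ξ` outside `E`
and every `τ > 0` there is `M` such that all the abc-triples `(p, q - p, q)` with
`|ξ - p / q| ≤ q ^ (-τ)` satisfy `q < rad (p (q - p) q) ^ M`. For given `M ≥ 1` and `τ > 0` the same
holds with finitely many exceptions outside a set of dimension at most `g (M) / τ`, where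
`g (M) = 4 / (7 M)` for `M ≥ 3 / 2`.
-/

set_option autoImplicit false

namespace Pool.Agent.Results.MP_2ec8a3_nt.ApproximationsWeakForm

open Filter Topology

/-- the product of the primes dividing `n` -/
def rad (n : ℕ) : ℕ := ∏ p ∈ n.primeFactors, p

/-- the fraction `t.1 / t.2` in lowest terms and in `(0, 1)` approximates `ξ` with exponent `τ` -/
def Approximates (τ ξ : ℝ) (t : ℕ × ℕ) : Prop :=
  0 < t.1 ∧ t.1 < t.2 ∧ Nat.Coprime t.1 t.2 ∧ |ξ - (t.1 : ℝ) / t.2| ≤ (t.2 : ℝ) ^ (-τ)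

/-- the abc-triple `(p, q - p, q)` of the fraction `p / q = t.1 / t.2` satisfies
`q < rad (p (q - p) q) ^ M` -/
def Good (M : ℝ) (t : ℕ × ℕ) : Prop :=
  (t.2 : ℝ) < (rad (t.1 * (t.2 - t.1) * t.2) : ℝ) ^ M

/-- `15 / 28` for `M = 1`, decreasing, and `4 / (7 M)` for `M ≥ 3 / 2` -/
noncomputable def g (M : ℝ) : ℝ := if M < 3 / 2 then (13 + 2 * M) / (28 * M) else 4 / (7 * M)

lemma Fx_eq (M : ℝ) (hM : 1 ≤ M) : Pool.Agent.W221.ABC7.Fx (1 / M) = g M := by
  have hM0 : 0 < M := by linarith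
  unfold Pool.Agent.W221.ABC7.Fx g
  by_cases h : M < 3 / 2
  · have h1 : ¬ (1 / M ≤ 2 / 3) := by
      rw [not_le, lt_div_iff₀ hM0]
      linarith
    have h2 : 1 / M ≤ 1 := by
      rw [div_le_one hM0]
      exact hM
    rw [if_neg h1, if_pos h2, if_pos h]
    field_simp
  · have h1 : 1 / M ≤ 2 / 3 := by
      rw [div_le_iff₀ hM0]
      linarith
    rw [if_pos h1, if_neg h]
    field_simp

lemma rad_pos (n : ℕ) : 0 < rad n :=
  Finset.prod_pos fun _ hp => (Nat.prime_of_mem_primeFactors hp).pos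

lemma two_le_rad {n : ℕ} (hn : 1 < n) : 2 ≤ rad n := by
  obtain ⟨q, hq, hqd⟩ := Nat.exists_prime_and_dvd hn.ne'
  have hmem : q ∈ n.primeFactors := Nat.mem_primeFactors.mpr ⟨hq, hqd, by omega⟩
  exact hq.two_le.trans (Nat.le_of_dvd (rad_pos _) (Finset.dvd_prod_of_mem _ hmem))

/-- outside a set of dimension at most `g (M) / τ` only finitely many approximations are bad -/
theorem part_two (M τ : ℝ) (hM : 1 ≤ M) (hτ : 0 < τ) :
    ∃ E : Set ℝ, dimH E ≤ ENNReal.ofReal (g M / τ) ∧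
      ∀ ξ : ℝ, ξ ∉ E → {t : ℕ × ℕ | Approximates τ ξ t ∧ ¬ Good M t}.Finite := by
  have hM0 : 0 < M := by linarith
  have h := Pool.Agent.R479.DA.dim_sm 1 (1 / M) τ (by positivity) hτ
  rw [Fx_eq M hM] at h
  refine ⟨_, h, fun ξ hξ => ?_⟩
  rw [Set.mem_ofPred_eq, Set.not_infinite] at hξ
  refine hξ.subset ?_
  rintro ⟨p, q⟩ ⟨⟨h1, h2, h3, h4⟩, h5⟩
  simp only at h1 h2 h3 h4 
  refine ⟨⟨h1, h2, h3, ?_⟩, h4⟩
  simp only
  unfold Good at h5
  simp only [not_lt] at h5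
  have hr : (0 : ℝ) < (rad (p * (q - p) * q) : ℝ) := by exact_mod_cast rad_pos _
  rw [show p * q * (q - p) = p * (q - p) * q by ring, one_mul]
  calc ((Pool.Agent.H785R2.ABC.rad (p * (q - p) * q) : ℕ) : ℝ)
      = ((rad (p * (q - p) * q) : ℝ) ^ M) ^ (1 / M) := by
        rw [← Real.rpow_mul hr.le, mul_one_div_cancel hM0.ne', Real.rpow_one]
        rfl
    _ ≤ (q : ℝ) ^ (1 / M) := Real.rpow_le_rpow (by positivity) h5 (by positivity)

/-- the inequality holds for any finite set of pairs, with a suitable exponent -/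
lemma good_finite {S : Set (ℕ × ℕ)} (hS : S.Finite) (hpos : ∀ t ∈ S, 0 < t.1 ∧ t.1 < t.2) :
    ∃ M : ℝ, ∀ t ∈ S, Good M t := by
  obtain ⟨B, hB⟩ : ∃ B : ℕ, ∀ t ∈ S, t.2 ≤ B := by
    obtain ⟨B, hB⟩ := (hS.image Prod.snd).bddAbove
    exact ⟨B, fun t ht => hB ⟨t, ht, rfl⟩⟩
  obtain ⟨M, hM⟩ := pow_unbounded_of_one_lt (B : ℝ) (one_lt_two : (1 : ℝ) < 2)
  refine ⟨M, fun t ht => ?_⟩
  obtain ⟨h1, h2⟩ := hpos t ht
  have h3 : 1 < t.1 * (t.2 - t.1) * t.2 := by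
    have h4 : 0 < t.1 * (t.2 - t.1) := Nat.mul_pos h1 (by omega)
    have h5 : 1 < t.2 := by omega
    nlinarith
  have h6 : (2 : ℝ) ≤ (rad (t.1 * (t.2 - t.1) * t.2) : ℝ) := by exact_mod_cast two_le_rad h3
  unfold Good
  calc (t.2 : ℝ) ≤ B := by exact_mod_cast hB t ht
    _ < 2 ^ M := hM
    _ = (2 : ℝ) ^ (M : ℝ) := (Real.rpow_natCast _ _).symm
    _ ≤ (rad (t.1 * (t.2 - t.1) * t.2) : ℝ) ^ (M : ℝ) :=
        Real.rpow_le_rpow (by norm_num) h6 (Nat.cast_nonneg M)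

lemma Good.mono {M M' : ℝ} {t : ℕ × ℕ} (h : Good M t) (hM : M ≤ M') : Good M' t := by
  have h2 : (1 : ℝ) ≤ (rad (t.1 * (t.2 - t.1) * t.2) : ℝ) := by exact_mod_cast rad_pos _
  exact lt_of_lt_of_le h (Real.rpow_le_rpow_of_exponent_le h2 hM)

lemma Approximates.mono {τ τ' ξ : ℝ} {t : ℕ × ℕ} (h : Approximates τ ξ t) (hτ : τ' ≤ τ) :
    Approximates τ' ξ t := by
  obtain ⟨h1, h2, h3, h4⟩ := h
  refine ⟨h1, h2, h3, h4.trans (Real.rpow_le_rpow_of_exponent_le ?_ (by linarith))⟩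
  have : 1 ≤ t.2 := by omega
  exact_mod_cast this

theorem part_one : ∃ E : Set ℝ, dimH E = 0 ∧ ∀ ξ : ℝ, ξ ∉ E → ∀ τ : ℝ, 0 < τ →
    ∃ M : ℝ, ∀ t : ℕ × ℕ, Approximates τ ξ t → Good M t := by
  have h : ∀ k j : ℕ, ∃ E : Set ℝ,
      dimH E ≤ ENNReal.ofReal (g ((j : ℝ) + 2) / (1 / ((k : ℝ) + 1))) ∧
      ∀ ξ : ℝ, ξ ∉ E →
        {t : ℕ × ℕ | Approximates (1 / ((k : ℝ) + 1)) ξ t ∧ ¬ Good ((j : ℝ) + 2) t}.Finite :=
    fun k j => part_two ((j : ℝ) + 2) (1 / ((k : ℝ) + 1))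
      (by have : (0 : ℝ) ≤ j := Nat.cast_nonneg j
          linarith) (by positivity)
  choose E hdim hgood using h
  refine ⟨⋃ k, ⋂ j, E k j, ?_, ?_⟩
  · rw [dimH_iUnion, ENNReal.iSup_eq_zero]
    intro k
    rw [← nonpos_iff_eq_zero]
    have hlim : Tendsto (fun j : ℕ =>
        ENNReal.ofReal (g ((j : ℝ) + 2) / (1 / ((k : ℝ) + 1)))) atTop (𝓝 0) := by
      rw [← ENNReal.ofReal_zero]
      apply ENNReal.tendsto_ofReal
      have h1 : Tendsto (fun j : ℕ => g ((j : ℝ) + 2)) atTop (𝓝 0) := by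
        have h2 : Tendsto (fun j : ℕ => (4 / 7) * ((j : ℝ) + 2)⁻¹) atTop (𝓝 ((4 / 7) * 0)) := by
          apply Tendsto.const_mul
          apply tendsto_inv_atTop_zero.comp
          exact tendsto_atTop_add_const_right _ _ tendsto_natCast_atTop_atTop
        rw [mul_zero] at h2
        refine h2.congr fun j => ?_
        have h3 : ¬ ((j : ℝ) + 2 < 3 / 2) := by
          have : (0 : ℝ) ≤ j := Nat.cast_nonneg j
          rw [not_lt]
          linarith
        have h4 : (j : ℝ) + 2 ≠ 0 := by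
          have : (0 : ℝ) ≤ j := Nat.cast_nonneg j
          positivity
        unfold g
        rw [if_neg h3]
        field_simp
      have h5 := h1.div_const (1 / ((k : ℝ) + 1))
      rwa [zero_div] at h5
    exact ge_of_tendsto' hlim fun j => (dimH_mono (Set.iInter_subset _ j)).trans (hdim k j)
  · intro ξ hξ τ hτ
    obtain ⟨k, hk⟩ := exists_nat_ge (1 / τ)
    have hk' : 1 / ((k : ℝ) + 1) ≤ τ := by
      rw [div_le_iff₀ (by positivity)]
      rw [div_le_iff₀ hτ] at hk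
      nlinarith
    have h1 : ξ ∉ ⋂ j, E k j := fun hcon => hξ (Set.mem_iUnion.2 ⟨k, hcon⟩)
    rw [Set.mem_iInter] at h1
    push Not at h1
    obtain ⟨j, hj⟩ := h1
    obtain ⟨M', hM'⟩ := good_finite (hgood k j ξ hj) (fun t ht => ⟨ht.1.1, ht.1.2.1⟩)
    refine ⟨max ((j : ℝ) + 2) M', fun t ht => ?_⟩
    by_cases hg : Good ((j : ℝ) + 2) t
    · exact hg.mono (le_max_left _ _)
    · exact (hM' t ⟨ht.mono hk', hg⟩).mono (le_max_right _ _)

/-- **Theorem.** (1) There is a set `E` of Hausdorff dimension zero such that for every real `ξ`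
outside `E` and every `τ > 0` there is `M` such that all the fractions `p / q` in `(0, 1)`, in lowest
terms, with `|ξ - p / q| ≤ q ^ (-τ)` satisfy `q < rad (p (q - p) q) ^ M`. (2) For all `M ≥ 1` and
`τ > 0` there is a set `E` of dimension at most `g (M) / τ` such that for every real `ξ` outside `E`
all but finitely many such fractions satisfy `q < rad (p (q - p) q) ^ M`. -/
theorem result :
    (∃ E : Set ℝ, dimH E = 0 ∧ ∀ ξ : ℝ, ξ ∉ E → ∀ τ : ℝ, 0 < τ →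
      ∃ M : ℝ, ∀ t : ℕ × ℕ, Approximates τ ξ t → Good M t) ∧
    (∀ M τ : ℝ, 1 ≤ M → 0 < τ → ∃ E : Set ℝ, dimH E ≤ ENNReal.ofReal (g M / τ) ∧
      ∀ ξ : ℝ, ξ ∉ E → {t : ℕ × ℕ | Approximates τ ξ t ∧ ¬ Good M t}.Finite) :=
  ⟨part_one, part_two⟩

end Pool.Agent.Results.MP_2ec8a3_nt.ApproximationsWeakForm
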