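import Pool.Agent.R485.AN.Div
import Pool.Agent.R485.AN.Pow

/-!
# Oesterlé's weak form of the abc conjecture for the triples with a divisor of `abc` near a power of `α`

Let `v n` be real exponents such that the sums of `exp (-t v n)` converge for all `t > 0`, for
instance `v n = n` (then the `α ^ (v n)` are all powers of `α`, in particular also the numbers
`α ^ (3 ^ n)` of Mills are included) or `v n = n ^ δ` with a small `δ > 0`.

For all `α > 1` outside a set of Hausdorff dimension zero there is for all `A` and `θ < 1` an `M` such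
that EVERY abc-triple for which `abc` has a divisor `d` with `|d - α ^ (v n)| ≤ α ^ (θ v n)` for some
`n`, and with `c ≤ d ^ A`, satisfies `c < rad (abc) ^ M`. For given `A, θ, M` this holds for all but
finitely many `n` for all `α > 1` outside a set of Hausdorff dimension at most `A g(M) / (1 - θ)`,
`g(M) = 4 / (7 M)` for `M ≥ 3/2`.
-/

set_option autoImplicit false

namespace Pool.Agent.Results.MP_2ec8a3_nt.DivisorsNearPowers

open Finset Filter Topology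

/-- the product of the primes dividing `n` -/
def rad (n : ℕ) : ℕ := ∏ p ∈ n.primeFactors, p

/-- every abc-triple `(a, b, c)`, `c = a + b ≤ d ^ A`, such that `d` divides `abc`, satisfies
`c < rad (abc) ^ M` -/
def Good (A M : ℝ) (d : ℕ) : Prop :=
  ∀ a b : ℕ, 0 < a → 0 < b → Nat.Coprime a b → d ∣ a * b * (a + b) →
    ((a + b : ℕ) : ℝ) ≤ (d : ℝ) ^ A → ((a + b : ℕ) : ℝ) < (rad (a * b * (a + b)) : ℝ) ^ M

/-- the sums of `exp (-t v n)` converge for all `t > 0` -/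
def Thin (v : ℕ → ℝ) : Prop := ∀ t : ℝ, 0 < t → Summable fun n : ℕ => Real.exp (-(t * v n))

/-- `15 / 28` for `M = 1`, decreasing, and `4 / (7 M)` for `M ≥ 3 / 2` -/
noncomputable def g (M : ℝ) : ℝ := if M < 3 / 2 then (13 + 2 * M) / (28 * M) else 4 / (7 * M)

lemma Fx_eq (M : ℝ) (hM : 1 ≤ M) : Pool.Agent.W221.ABC7.Fx (1 / M) = g M := by
  have hM0 : 0 < M := by linarith
  unfold Pool.Agent.W221.ABC7.Fx g
  by_cases h : M < 3 / 2
  · have h1 : ¬ (1 / M ≤ 2 / 3) := by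
      rw [not_le, lt_div_iff₀ hM0]
      linarith
    have h2 : 1 / M ≤ 1 := by
      rw [div_le_one hM0]
      exact hM
    rw [if_neg h1, if_pos h2, if_pos h]
    field_simp
  · have h1 : 1 / M ≤ 2 / 3 := by
      rw [div_le_iff₀ hM0]
      linarith
    rw [if_pos h1, if_neg h]
    field_simp

lemma g_nonneg (M : ℝ) (hM : 0 < M) : 0 ≤ g M := by
  unfold g
  split_ifs <;> positivity

lemma rad_pos (n : ℕ) : 0 < rad n :=
  Finset.prod_pos fun _ hp => (Nat.prime_of_mem_primeFactors hp).pos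

lemma two_le_rad {a b : ℕ} (ha : 0 < a) (hb : 0 < b) : 2 ≤ rad (a * b * (a + b)) := by
  have h4 : 1 < a * b * (a + b) := by nlinarith [Nat.mul_pos ha hb]
  obtain ⟨q, hq, hqd⟩ := Nat.exists_prime_and_dvd h4.ne'
  have hmem : q ∈ (a * b * (a + b)).primeFactors := Nat.mem_primeFactors.mpr ⟨hq, hqd, by omega⟩
  exact hq.two_le.trans (Nat.le_of_dvd (rad_pos _) (Finset.dvd_prod_of_mem _ hmem))

lemma good_of (A M : ℝ) (hM : 0 < M) (d : ℕ) (h : d ∉ Pool.Agent.R485.AN.Bad (1 / M) A) :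
    Good A M d := by
  intro a b ha hb hab hd hht
  have hc0 : (0 : ℝ) ≤ ((a + b : ℕ) : ℝ) := Nat.cast_nonneg _
  have hbig : ((a + b : ℕ) : ℝ) ^ (1 / M) < (rad (a * b * (a + b)) : ℝ) := by
    by_contra hcon
    push Not at hcon
    exact h ⟨a, b, ha, hb, hab, hd, hht, hcon⟩
  calc ((a + b : ℕ) : ℝ) = (((a + b : ℕ) : ℝ) ^ (1 / M)) ^ M := by
        rw [← Real.rpow_mul hc0, one_div_mul_cancel hM.ne', Real.rpow_one]
    _ < (rad (a * b * (a + b)) : ℝ) ^ M := Real.rpow_lt_rpow (by positivity) hbig hM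

lemma one_le_div {a b d : ℕ} (ha : 0 < a) (hb : 0 < b) (hd : d ∣ a * b * (a + b)) : 1 ≤ d :=
  Nat.pos_of_dvd_of_pos hd (by positivity)

lemma Good.mono {A A' M M' : ℝ} {d : ℕ} (hA : A' ≤ A) (hM : M ≤ M') (h : Good A M d) :
    Good A' M' d := by
  intro a b ha hb hab hd hht
  have hm' : (1 : ℝ) ≤ d := by exact_mod_cast one_le_div ha hb hd
  have h1 := h a b ha hb hab hd (hht.trans (Real.rpow_le_rpow_of_exponent_le hm' hA))
  have h2 : (1 : ℝ) ≤ (rad (a * b * (a + b)) : ℝ) := by exact_mod_cast rad_pos _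
  exact h1.trans_le (Real.rpow_le_rpow_of_exponent_le h2 hM)

/-- finitely many integers `d` -/
lemma good_small (A : ℝ) (B : ℕ) : ∃ M : ℝ, ∀ d : ℕ, d ≤ B → Good A M d := by
  obtain ⟨M, hM⟩ := pow_unbounded_of_one_lt (((B : ℝ) + 1) ^ |A|) (one_lt_two : (1 : ℝ) < 2)
  refine ⟨M, fun d hd a b ha hb hab hdvd hht => ?_⟩
  have hm' : (1 : ℝ) ≤ d := by exact_mod_cast one_le_div ha hb hdvd
  have hmB : (d : ℝ) ≤ (B : ℝ) + 1 := by
    have : (d : ℝ) ≤ B := by exact_mod_cast hd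
    linarith
  have h2 : (2 : ℝ) ≤ (rad (a * b * (a + b)) : ℝ) := by exact_mod_cast two_le_rad ha hb
  calc ((a + b : ℕ) : ℝ) ≤ (d : ℝ) ^ A := hht
    _ ≤ (d : ℝ) ^ |A| := Real.rpow_le_rpow_of_exponent_le hm' (le_abs_self A)
    _ ≤ ((B : ℝ) + 1) ^ |A| := Real.rpow_le_rpow (by linarith) hmB (abs_nonneg A)
    _ < 2 ^ M := hM
    _ = (2 : ℝ) ^ (M : ℝ) := (Real.rpow_natCast _ _).symm
    _ ≤ (rad (a * b * (a + b)) : ℝ) ^ (M : ℝ) :=
        Real.rpow_le_rpow (by norm_num) h2 (Nat.cast_nonneg M)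

theorem part_one (v : ℕ → ℝ) (hv : Thin v) (A θ M : ℝ) (hA : 0 < A) (hθ0 : 0 ≤ θ) (hθ1 : θ < 1)
    (hM : 1 ≤ M) :
    ∃ E : Set ℝ, dimH E ≤ ENNReal.ofReal (A * g M / (1 - θ)) ∧ ∀ α : ℝ, 1 < α → α ∉ E →
      ∃ n₀ : ℕ, ∀ n : ℕ, n₀ ≤ n → ∀ d : ℕ, |(d : ℝ) - α ^ (v n)| ≤ (α ^ (v n)) ^ θ →
        Good A M d := by
  have hM0 : 0 < M := by linarith
  have hlam : 0 < 1 / M := by positivity
  have hF := Pool.Agent.W221.ABC7.Fx_pos (1 / M) hlam
  obtain ⟨E, h1, h2⟩ := Pool.Agent.R485.AN.dim_pow (Pool.Agent.R485.AN.Bad (1 / M) A)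
    (fun d hd => Pool.Agent.R485.AN.bad_pos hd) (s := A * Pool.Agent.W221.ABC7.Fx (1 / M))
    (by positivity) hθ0 hθ1 (fun ε hε => Pool.Agent.R485.AN.count (1 / M) A hlam hA ε hε) hv
  rw [Fx_eq M hM] at h1
  refine ⟨E, h1, fun α hα hαE => ?_⟩
  obtain ⟨n₀, hn⟩ := h2 α hα hαE
  exact ⟨n₀, fun n hn1 d hd => good_of A M hM0 _ (hn n hn1 d hd)⟩

theorem part_two (v : ℕ → ℝ) (hv : Thin v) :
    ∃ E : Set ℝ, dimH E = 0 ∧ ∀ α : ℝ, 1 < α → α ∉ E → ∀ A θ : ℝ, θ < 1 →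
      ∃ M : ℝ, ∀ n d : ℕ, |(d : ℝ) - α ^ (v n)| ≤ (α ^ (v n)) ^ θ → Good A M d := by
  have hl : ∀ l : ℕ, (0 : ℝ) < 1 / ((l : ℝ) + 1) := fun l => by positivity
  have h : ∀ k l j : ℕ, ∃ E : Set ℝ,
      dimH E ≤ ENNReal.ofReal (((k : ℝ) + 1) * g ((j : ℝ) + 2) / (1 - (1 - 1 / ((l : ℝ) + 1)))) ∧
      ∀ α : ℝ, 1 < α → α ∉ E → ∃ n₀ : ℕ, ∀ n : ℕ, n₀ ≤ n → ∀ d : ℕ,
        |(d : ℝ) - α ^ (v n)| ≤ (α ^ (v n)) ^ (1 - 1 / ((l : ℝ) + 1)) →
          Good ((k : ℝ) + 1) ((j : ℝ) + 2) d := fun k l j =>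
    part_one v hv ((k : ℝ) + 1) (1 - 1 / ((l : ℝ) + 1)) ((j : ℝ) + 2) (by positivity)
      (by
        have : 1 / ((l : ℝ) + 1) ≤ 1 := by
          rw [div_le_one (by positivity)]
          have : (0 : ℝ) ≤ l := Nat.cast_nonneg l
          linarith
        linarith) (by linarith [hl l]) (by
          have : (0 : ℝ) ≤ j := Nat.cast_nonneg j
          linarith)
  choose E hdim hgood using h
  refine ⟨⋃ k, ⋃ l, ⋂ j, E k l j, ?_, ?_⟩
  · refine le_antisymm ?_ bot_le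
    rw [dimH_iUnion]
    refine iSup_le fun k => ?_
    rw [dimH_iUnion]
    refine iSup_le fun l => ?_
    have hlim : Tendsto (fun j : ℕ =>
        ENNReal.ofReal (((k : ℝ) + 1) * g ((j : ℝ) + 2) / (1 - (1 - 1 / ((l : ℝ) + 1))))) atTop
        (𝓝 0) := by
      rw [← ENNReal.ofReal_zero]
      apply ENNReal.tendsto_ofReal
      have h1 : Tendsto (fun j : ℕ => g ((j : ℝ) + 2)) atTop (𝓝 0) := by
        have h2 : Tendsto (fun j : ℕ => (4 / 7) * ((j : ℝ) + 2)⁻¹) atTop (𝓝 ((4 / 7) * 0)) := by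
          apply Tendsto.const_mul
          apply tendsto_inv_atTop_zero.comp
          exact tendsto_atTop_add_const_right _ _ tendsto_natCast_atTop_atTop
        rw [mul_zero] at h2
        refine h2.congr fun j => ?_
        have h3 : ¬ ((j : ℝ) + 2 < 3 / 2) := by
          have : (0 : ℝ) ≤ j := Nat.cast_nonneg j
          rw [not_lt]
          linarith
        have h4 : (j : ℝ) + 2 ≠ 0 := by
          have : (0 : ℝ) ≤ j := Nat.cast_nonneg j
          positivity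
        unfold g
        rw [if_neg h3]
        field_simp
      have h5 : Tendsto (fun j : ℕ =>
          ((k : ℝ) + 1) * g ((j : ℝ) + 2) / (1 - (1 - 1 / ((l : ℝ) + 1)))) atTop
          (𝓝 (((k : ℝ) + 1) * 0 / (1 - (1 - 1 / ((l : ℝ) + 1))))) :=
        (h1.const_mul _).div_const _
      rwa [mul_zero, zero_div] at h5
    exact ge_of_tendsto' hlim fun j => (dimH_mono (Set.iInter_subset _ j)).trans (hdim k l j)
  · intro α hα hαE A θ hθ
    obtain ⟨k, hk⟩ := exists_nat_ge A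
    obtain ⟨l, hl'⟩ := exists_nat_ge (1 / (1 - θ))
    have h1 : α ∉ ⋂ j, E k l j := fun hcon =>
      hαE (Set.mem_iUnion.2 ⟨k, Set.mem_iUnion.2 ⟨l, hcon⟩⟩)
    rw [Set.mem_iInter] at h1
    push Not at h1
    obtain ⟨j, hj⟩ := h1
    obtain ⟨n₀, hn₀⟩ := hgood k l j α hα hj
    have hα0 : 0 < α := by linarith
    have hθl : θ ≤ 1 - 1 / ((l : ℝ) + 1) := by
      have e1 : 1 / ((l : ℝ) + 1) ≤ 1 - θ := by
        rw [div_le_iff₀ (by positivity)]
        rw [div_le_iff₀ (by linarith)] at hl'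
        nlinarith
      linarith
    have hvt : Tendsto v atTop atTop := Pool.Agent.R485.AN.Thin.tendsto hv
    obtain ⟨n₁, hn₁⟩ := eventually_atTop.1 (hvt.eventually_ge_atTop 0)
    -- the finitely many remaining windows
    obtain ⟨B, hB⟩ : ∃ B : ℕ, ∀ n < max n₀ n₁, ∀ d : ℕ,
        |(d : ℝ) - α ^ (v n)| ≤ (α ^ (v n)) ^ θ → d ≤ B := by
      refine ⟨(Finset.range (max n₀ n₁)).sup fun n => ⌈α ^ (v n) + (α ^ (v n)) ^ θ⌉₊,
        fun n hn d hd => ?_⟩
      have h2 : (d : ℝ) ≤ α ^ (v n) + (α ^ (v n)) ^ θ := by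
        have := (abs_le.mp hd).2
        linarith
      have h3 : d ≤ ⌈α ^ (v n) + (α ^ (v n)) ^ θ⌉₊ := by exact_mod_cast h2.trans (Nat.le_ceil _)
      exact h3.trans (Finset.le_sup (f := fun n => ⌈α ^ (v n) + (α ^ (v n)) ^ θ⌉₊)
        (Finset.mem_range.mpr hn))
    obtain ⟨M', hM'⟩ := good_small A B
    refine ⟨max ((j : ℝ) + 2) M', fun n d hd => ?_⟩
    rcases Nat.lt_or_ge n (max n₀ n₁) with hn | hn
    · exact (hM' d (hB n hn d hd)).mono le_rfl (le_max_right _ _)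
    · have hvn : 0 ≤ v n := hn₁ n ((le_max_right _ _).trans hn)
      have h5 : 1 ≤ α ^ (v n) := Real.one_le_rpow hα.le hvn
      have h6 : (α ^ (v n)) ^ θ ≤ (α ^ (v n)) ^ (1 - 1 / ((l : ℝ) + 1)) :=
        Real.rpow_le_rpow_of_exponent_le h5 hθl
      exact (hn₀ n ((le_max_left _ _).trans hn) d (hd.trans h6)).mono (by linarith)
        (le_max_left _ _)

theorem thin_pow (δ : ℝ) (hδ : 0 < δ) : Thin (fun n : ℕ => ((n : ℝ) + 1) ^ δ) := by
  intro t ht
  have h1 := isLittleO_exp_neg_mul_rpow_atTop ht (-(2 / δ))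
  have h2 : Tendsto (fun n : ℕ => ((n : ℝ) + 1) ^ δ) atTop atTop :=
    (tendsto_rpow_atTop hδ).comp
      (tendsto_atTop_add_const_right _ _ tendsto_natCast_atTop_atTop)
  have h3 := (h1.comp_tendsto h2).isBigO
  refine summable_of_isBigO_nat (g := fun n : ℕ => ((n : ℝ) + 1) ^ (-2 : ℝ)) ?_ ?_
  · have h4 : Summable (fun n : ℕ => ((n : ℝ)) ^ (-2 : ℝ)) := by
      rw [Real.summable_nat_rpow]
      norm_num
    have h5 := (summable_nat_add_iff 1).2 h4
    refine h5.congr fun n => ?_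
    push_cast
    rfl
  · refine (h3.congr_left fun n => ?_).congr_right fun n => ?_
    · simp only [Function.comp_apply]
      congr 1
      ring
    · simp only [Function.comp_apply]
      have : (0 : ℝ) ≤ (n : ℝ) + 1 := by positivity
      rw [← Real.rpow_mul this]
      congr 1
      field_simp

theorem thin_id : Thin (fun n : ℕ => (n : ℝ)) := by
  intro t ht
  have h1 : Summable (fun n : ℕ => (Real.exp (-t)) ^ n) :=
    summable_geometric_of_lt_one (Real.exp_pos _).le (by rw [Real.exp_lt_one_iff]; linarith)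
  refine h1.congr fun n => ?_
  rw [← Real.exp_nat_mul]
  congr 1
  ring

/-- **Theorem.** (1) For all exponents `v n` such that the sums of `exp (-t v n)` converge for all
`t > 0` there is a set `E` of Hausdorff dimension zero such that for every real `α > 1` outside `E`,
every `A` and every `θ < 1` there is `M` such that all the integers `d` with
`|d - α ^ (v n)| ≤ α ^ (θ v n)` for some `n` are `Good A M`. (2) For given `A > 0`, `0 ≤ θ < 1` and
`M ≥ 1` there is a set `E` of dimension at most `A g(M) / (1 - θ)` such that for each `α > 1` outside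
`E` and all but finitely many `n` all the integers `d` with `|d - α ^ (v n)| ≤ α ^ (θ v n)` are
`Good A M`. (3) The exponents `v n = n` and `v n = (n + 1) ^ δ`, `δ > 0`, have the required
property. -/
theorem result :
    (∀ v : ℕ → ℝ, Thin v → ∃ E : Set ℝ, dimH E = 0 ∧ ∀ α : ℝ, 1 < α → α ∉ E →
      ∀ A θ : ℝ, θ < 1 → ∃ M : ℝ, ∀ n d : ℕ, |(d : ℝ) - α ^ (v n)| ≤ (α ^ (v n)) ^ θ →
        Good A M d) ∧
    (∀ v : ℕ → ℝ, Thin v → ∀ A θ M : ℝ, 0 < A → 0 ≤ θ → θ < 1 → 1 ≤ M →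
      ∃ E : Set ℝ, dimH E ≤ ENNReal.ofReal (A * g M / (1 - θ)) ∧ ∀ α : ℝ, 1 < α → α ∉ E →
        ∃ n₀ : ℕ, ∀ n : ℕ, n₀ ≤ n → ∀ d : ℕ, |(d : ℝ) - α ^ (v n)| ≤ (α ^ (v n)) ^ θ →
          Good A M d) ∧
    Thin (fun n : ℕ => (n : ℝ)) ∧ (∀ δ : ℝ, 0 < δ → Thin (fun n : ℕ => ((n : ℝ) + 1) ^ δ)) :=
  ⟨fun v hv => part_two v hv, fun v hv A θ M hA h0 h1 hM => part_one v hv A θ M hA h0 h1 hM,
    thin_id, thin_pow⟩

end Pool.Agent.Results.MP_2ec8a3_nt.DivisorsNearPowers
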