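import Pool.Agent.R479.DA.Frac

/-!
# Oesterlé's weak form of the abc conjecture and congruences to random residues

Let `𝓜` be a set of moduli such that the sum of `m ^ (-s)` converges for some `s < 1` (such as the
squareful numbers, for `s > 1 / 2`, which contain the powers `p ^ k`, `k ≥ 2`, of all primes), let
`X m` be random residues modulo `m` (such as the residues of a random profinite integer), and let
`φ m` be any maps from the abc-triples to the residues modulo `m` (such as `a / c`). Almost surely,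
for every `τ > 0` there is `M` such that for all `m` in `𝓜` all the abc-triples with `c ^ τ ≤ m` and
`φ m (a, c) = X m` satisfy `c < rad (abc) ^ M`.
-/

set_option autoImplicit false

namespace Pool.Agent.Results.MP_2ec8a3_nt.RandomCongruences

open Filter Topology MeasureTheory

/-- the product of the primes dividing `n` -/
def rad (n : ℕ) : ℕ := ∏ p ∈ n.primeFactors, p

/-- `(a, c)` belongs to the abc-triple `(a, c - a, c)` -/
def IsTriple (t : ℕ × ℕ) : Prop := 0 < t.1 ∧ t.1 < t.2 ∧ Nat.Coprime t.1 t.2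

/-- the abc-triple `(a, c - a, c)`, where `t = (a, c)`, satisfies `c < rad (abc) ^ M` -/
def Good (M : ℝ) (t : ℕ × ℕ) : Prop :=
  (t.2 : ℝ) < (rad (t.1 * (t.2 - t.1) * t.2) : ℝ) ^ M

/-- `15 / 28` for `M = 1`, decreasing, and `4 / (7 M)` for `M ≥ 3 / 2` -/
noncomputable def g (M : ℝ) : ℝ := if M < 3 / 2 then (13 + 2 * M) / (28 * M) else 4 / (7 * M)

/-- every prime dividing `m` divides it at least twice -/
def Squareful (m : ℕ) : Prop := 0 < m ∧ ∀ p : ℕ, p.Prime → p ∣ m → p ^ 2 ∣ m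

lemma Fx_eq (M : ℝ) (hM : 1 ≤ M) : Pool.Agent.W221.ABC7.Fx (1 / M) = g M := by
  have hM0 : 0 < M := by linarith
  unfold Pool.Agent.W221.ABC7.Fx g
  by_cases h : M < 3 / 2
  · have h1 : ¬ (1 / M ≤ 2 / 3) := by
      rw [not_le, lt_div_iff₀ hM0]
      linarith
    have h2 : 1 / M ≤ 1 := by
      rw [div_le_one hM0]
      exact hM
    rw [if_neg h1, if_pos h2, if_pos h]
    field_simp
  · have h1 : 1 / M ≤ 2 / 3 := by
      rw [div_le_iff₀ hM0]
      linarith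
    rw [if_pos h1, if_neg h]
    field_simp

lemma rad_pos (n : ℕ) : 0 < rad n :=
  Finset.prod_pos fun _ hp => (Nat.prime_of_mem_primeFactors hp).pos

lemma two_le_rad {n : ℕ} (hn : 1 < n) : 2 ≤ rad n := by
  obtain ⟨q, hq, hqd⟩ := Nat.exists_prime_and_dvd hn.ne'
  have hmem : q ∈ n.primeFactors := Nat.mem_primeFactors.mpr ⟨hq, hqd, by omega⟩
  exact hq.two_le.trans (Nat.le_of_dvd (rad_pos _) (Finset.dvd_prod_of_mem _ hmem))

/-- the inequality holds for any finite set of triples, with a suitable exponent -/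
lemma good_finite {S : Set (ℕ × ℕ)} (hS : S.Finite) (hpos : ∀ t ∈ S, IsTriple t) :
    ∃ M : ℝ, ∀ t ∈ S, Good M t := by
  obtain ⟨B, hB⟩ : ∃ B : ℕ, ∀ t ∈ S, t.2 ≤ B := by
    obtain ⟨B, hB⟩ := (hS.image Prod.snd).bddAbove
    exact ⟨B, fun t ht => hB ⟨t, ht, rfl⟩⟩
  obtain ⟨M, hM⟩ := pow_unbounded_of_one_lt (B : ℝ) (one_lt_two : (1 : ℝ) < 2)
  refine ⟨M, fun t ht => ?_⟩
  obtain ⟨h1, h2, -⟩ := hpos t ht
  have h3 : 1 < t.1 * (t.2 - t.1) * t.2 := by
    have h4 : 0 < t.1 * (t.2 - t.1) := Nat.mul_pos h1 (by omega)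
    have h5 : 1 < t.2 := by omega
    nlinarith
  have h6 : (2 : ℝ) ≤ (rad (t.1 * (t.2 - t.1) * t.2) : ℝ) := by exact_mod_cast two_le_rad h3
  unfold Good
  calc (t.2 : ℝ) ≤ B := by exact_mod_cast hB t ht
    _ < 2 ^ M := hM
    _ = (2 : ℝ) ^ (M : ℝ) := (Real.rpow_natCast _ _).symm
    _ ≤ (rad (t.1 * (t.2 - t.1) * t.2) : ℝ) ^ (M : ℝ) :=
        Real.rpow_le_rpow (by norm_num) h6 (Nat.cast_nonneg M)

lemma Good.mono {M M' : ℝ} {t : ℕ × ℕ} (h : Good M t) (hM : M ≤ M') : Good M' t := by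
  have h2 : (1 : ℝ) ≤ (rad (t.1 * (t.2 - t.1) * t.2) : ℝ) := by exact_mod_cast rad_pos _
  exact lt_of_lt_of_le h (Real.rpow_le_rpow_of_exponent_le h2 hM)

/-- the sum of `c ^ (-p)` over the exceptional triples converges for `p > g M` -/
lemma summable_bad {M p : ℝ} (hM : 1 ≤ M) (hp : g M < p) :
    Summable fun t : {t : ℕ × ℕ // IsTriple t ∧ ¬ Good M t} => (t.1.2 : ℝ) ^ (-p) := by
  have hM0 : 0 < M := by linarith
  have hg0 : 0 ≤ g M := by
    rw [← Fx_eq M hM]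
    exact (Pool.Agent.W221.ABC7.Fx_pos _ (by positivity)).le
  obtain ⟨C, hC⟩ := Pool.Agent.R479.DA.sm_count 1 (1 / M) (by positivity) ((p - g M) / 2)
    (by linarith)
  have hsub : ∀ t : {t : ℕ × ℕ // IsTriple t ∧ ¬ Good M t},
      t.1 ∈ Pool.Agent.R479.DA.Sm 1 (1 / M) := by
    rintro ⟨⟨a, c⟩, ⟨h1, h2, h3⟩, h5⟩
    simp only at h1 h2 h3
    refine ⟨h1, h2, h3, ?_⟩
    simp only
    unfold Good at h5
    simp only [not_lt] at h5
    have hr : (0 : ℝ) < (rad (a * (c - a) * c) : ℝ) := by exact_mod_cast rad_pos _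
    rw [show a * c * (c - a) = a * (c - a) * c by ring, one_mul]
    calc ((Pool.Agent.H785R2.ABC.rad (a * (c - a) * c) : ℕ) : ℝ)
        = ((rad (a * (c - a) * c) : ℝ) ^ M) ^ (1 / M) := by
          rw [← Real.rpow_mul hr.le, mul_one_div_cancel hM0.ne', Real.rpow_one]
          rfl
      _ ≤ (c : ℝ) ^ (1 / M) := Real.rpow_le_rpow (by positivity) h5 (by positivity)
  refine Pool.Agent.R479.DA.summable_heights
    (fun t : {t : ℕ × ℕ // IsTriple t ∧ ¬ Good M t} => (t.1.2 : ℝ)) ?_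
    (s := g M + (p - g M) / 2) (p := p) (C := C) (by linarith) (by linarith) ?_
  · rintro ⟨⟨a, c⟩, ⟨h1, h2, h3⟩, h5⟩
    simp only at h1 h2 ⊢
    have : 1 ≤ c := by omega
    exact_mod_cast this
  · intro Z hZ
    obtain ⟨h1, h2⟩ := hC Z hZ
    have hinj : Set.InjOn Subtype.val
        {t : {t : ℕ × ℕ // IsTriple t ∧ ¬ Good M t} | (t.1.2 : ℝ) ≤ Z} :=
      Subtype.val_injective.injOn
    have hmaps : Set.MapsTo Subtype.val
        {t : {t : ℕ × ℕ // IsTriple t ∧ ¬ Good M t} | (t.1.2 : ℝ) ≤ Z}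
        {t | t ∈ Pool.Agent.R479.DA.Sm 1 (1 / M) ∧ (t.2 : ℝ) ≤ Z} := fun t ht => ⟨hsub t, ht⟩
    refine ⟨h1.of_injOn hmaps hinj, ?_⟩
    have h3 := Set.ncard_le_ncard_of_injOn _ hmaps hinj h1
    rw [Fx_eq M hM] at h2
    exact le_trans (by exact_mod_cast h3) h2

section prob

variable {𝓜 : Set ℕ} {s : ℝ} {Ω : Type*} [MeasurableSpace Ω] {P : Measure Ω}
  {X : ∀ m : ℕ, Ω → ZMod m} {C : ℝ} {φ : ∀ m : ℕ, ℕ × ℕ → ZMod m}

/-- only finitely many exceptional triples for given `M`, `τ` -/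
theorem part_two (h0 : ∀ m ∈ 𝓜, 0 < m) (hs : s < 1)
    (hsum : Summable fun m : 𝓜 => ((m : ℕ) : ℝ) ^ (-s))
    (hX : ∀ m ∈ 𝓜, ∀ r : ZMod m, P {ω | X m ω = r} ≤ ENNReal.ofReal (C / m))
    {M τ : ℝ} (hM : 1 ≤ M) (hg : g M < (1 - s) * τ) :
    ∀ᵐ ω ∂P, {x : ℕ × (ℕ × ℕ) | (x.1 ∈ 𝓜 ∧ IsTriple x.2 ∧ (x.2.2 : ℝ) ^ τ ≤ x.1 ∧
      φ x.1 x.2 = X x.1 ω) ∧ ¬ Good M x.2}.Finite := by
  classical
  let B := {t : ℕ × ℕ // IsTriple t ∧ ¬ Good M t}
  let A : 𝓜 × B → Set Ω := fun i =>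
    {ω | (i.2.1.2 : ℝ) ^ τ ≤ ((i.1 : ℕ) : ℝ) ∧ X i.1 ω = φ i.1 i.2.1}
  have hc1 : ∀ t : B, (1 : ℝ) ≤ (t.1.2 : ℝ) := by
    rintro ⟨⟨a, c⟩, ⟨h1, h2, h3⟩, h5⟩
    simp only at h1 h2 ⊢
    have : 1 ≤ c := by omega
    exact_mod_cast this
  have hprod : Summable fun i : 𝓜 × B =>
      (((i.1 : ℕ) : ℝ) ^ (-s)) * ((i.2.1.2 : ℝ) ^ (-((1 - s) * τ))) :=
    hsum.mul_of_nonneg (summable_bad hM hg) (fun _ => Real.rpow_nonneg (Nat.cast_nonneg _) _)
      (fun _ => Real.rpow_nonneg (Nat.cast_nonneg _) _)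
  have hbound : ∀ i : 𝓜 × B, P (A i) ≤ ENNReal.ofReal (|C| *
      ((((i.1 : ℕ) : ℝ) ^ (-s)) * ((i.2.1.2 : ℝ) ^ (-((1 - s) * τ))))) := by
    intro i
    by_cases hi : (i.2.1.2 : ℝ) ^ τ ≤ ((i.1 : ℕ) : ℝ)
    · have hm : (0 : ℝ) < ((i.1 : ℕ) : ℝ) := by exact_mod_cast h0 _ i.1.2
      have hc := hc1 i.2
      have hc0 : (0 : ℝ) < (i.2.1.2 : ℝ) := by linarith
      refine (measure_mono (fun ω hω => hω.2)).trans ((hX _ i.1.2 _).trans ?_)
      apply ENNReal.ofReal_le_ofReal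
      have h1 : (((i.1 : ℕ) : ℝ))⁻¹ ≤
          (((i.1 : ℕ) : ℝ) ^ (-s)) * ((i.2.1.2 : ℝ) ^ (-((1 - s) * τ))) := by
        have e1 : (((i.1 : ℕ) : ℝ))⁻¹ =
            (((i.1 : ℕ) : ℝ) ^ (-s)) * (((i.1 : ℕ) : ℝ) ^ (-(1 - s))) := by
          rw [← Real.rpow_add hm, ← Real.rpow_neg_one]
          congr 1
          ring
        rw [e1]
        refine mul_le_mul_of_nonneg_left ?_ (by positivity)
        calc ((i.1 : ℕ) : ℝ) ^ (-(1 - s)) ≤ ((i.2.1.2 : ℝ) ^ τ) ^ (-(1 - s)) :=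
              Real.rpow_le_rpow_of_nonpos (by positivity) hi (by linarith)
          _ = (i.2.1.2 : ℝ) ^ (-((1 - s) * τ)) := by
              rw [← Real.rpow_mul hc0.le]
              congr 1
              ring
      calc C / ((i.1 : ℕ) : ℝ) ≤ |C| * (((i.1 : ℕ) : ℝ))⁻¹ := by
            rw [div_eq_mul_inv]
            exact mul_le_mul_of_nonneg_right (le_abs_self C) (by positivity)
        _ ≤ _ := mul_le_mul_of_nonneg_left h1 (abs_nonneg C)
    · have : A i = ∅ := by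
        ext ω
        simp only [A, Set.mem_ofPred_eq, Set.mem_empty_iff_false, iff_false]
        exact fun h => hi h.1
      rw [this, measure_empty]
      exact bot_le
  have hfin : ∑' i, P (A i) ≠ ⊤ := by
    refine ne_top_of_le_ne_top ?_ (ENNReal.tsum_le_tsum hbound)
    rw [← ENNReal.ofReal_tsum_of_nonneg ?_ (hprod.mul_left _)]
    · exact ENNReal.ofReal_ne_top
    · intro i
      positivity
  filter_upwards [ae_finite_setOfPred_mem hfin] with ω hω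
  refine (hω.image fun i => ((i.1 : ℕ), i.2.1)).subset ?_
  rintro ⟨m, t⟩ ⟨⟨h1, h2, h3, h4⟩, h5⟩
  exact ⟨(⟨m, h1⟩, ⟨t, h2, h5⟩), ⟨h3, h4.symm⟩, rfl⟩

theorem part_one (h0 : ∀ m ∈ 𝓜, 0 < m) (hs : s < 1)
    (hsum : Summable fun m : 𝓜 => ((m : ℕ) : ℝ) ^ (-s))
    (hX : ∀ m ∈ 𝓜, ∀ r : ZMod m, P {ω | X m ω = r} ≤ ENNReal.ofReal (C / m)) :
    ∀ᵐ ω ∂P, ∀ τ : ℝ, 0 < τ → ∃ M : ℝ, ∀ m ∈ 𝓜, ∀ t : ℕ × ℕ, IsTriple t →
      (t.2 : ℝ) ^ τ ≤ m → φ m t = X m ω → Good M t := by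
  have hex : ∀ k : ℕ, ∃ M : ℝ, 1 ≤ M ∧ g M < (1 - s) * (1 / ((k : ℝ) + 1)) := by
    intro k
    have hpos : 0 < (1 - s) * (1 / ((k : ℝ) + 1)) := mul_pos (by linarith) (by positivity)
    obtain ⟨M, hM⟩ := exists_gt (max (3 / 2) (4 / (7 * ((1 - s) * (1 / ((k : ℝ) + 1))))))
    have h1 : 3 / 2 < M := lt_of_le_of_lt (le_max_left _ _) hM
    have h2 := lt_of_le_of_lt (le_max_right _ _) hM
    refine ⟨M, by linarith, ?_⟩
    unfold g
    rw [if_neg (by linarith), div_lt_iff₀ (by linarith)]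
    rw [div_lt_iff₀ (by positivity)] at h2
    linarith
  choose Mk hMk1 hMk2 using hex
  have h := fun k : ℕ => part_two (P := P) (X := X) (φ := φ) h0 hs hsum hX (hMk1 k) (hMk2 k)
  filter_upwards [ae_all_iff.2 h] with ω hω τ hτ
  obtain ⟨k, hk⟩ := exists_nat_ge (1 / τ)
  have hk' : 1 / ((k : ℝ) + 1) ≤ τ := by
    rw [div_le_iff₀ (by positivity)]
    rw [div_le_iff₀ hτ] at hk
    nlinarith
  obtain ⟨M', hM'⟩ := good_finite ((hω k).image Prod.snd) (by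
    rintro t ⟨x, hx, rfl⟩
    exact hx.1.2.1)
  refine ⟨max (Mk k) M', fun m hm t ht hle hφ => ?_⟩
  by_cases hgood : Good (Mk k) t
  · exact hgood.mono (le_max_left _ _)
  · refine (hM' t ⟨(m, t), ⟨⟨hm, ht, ?_, hφ⟩, hgood⟩, rfl⟩).mono (le_max_right _ _)
    refine le_trans (Real.rpow_le_rpow_of_exponent_le ?_ hk') hle
    have : 1 ≤ t.2 := by
      obtain ⟨h1, h2, -⟩ := ht
      omega
    exact_mod_cast this

end prob

/-- a squareful number is of the form `a ^ 2 * b ^ 3` -/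
lemma Squareful.exists_eq {m : ℕ} (hm : Squareful m) :
    ∃ a b : ℕ, 0 < a ∧ 0 < b ∧ m = a ^ 2 * b ^ 3 := by
  obtain ⟨a, b, ha, hb, hab, hsq⟩ := Nat.sq_mul_squarefree_of_pos hm.1
  -- `b ^ 2 * a = m`, `a` squarefree
  have hdvd : a ∣ b := by
    rw [← Nat.prod_primeFactors_of_squarefree hsq]
    refine Finset.prod_primes_dvd b (fun p hp => (Nat.prime_of_mem_primeFactors hp).prime) ?_
    intro p hp
    have hpp := Nat.prime_of_mem_primeFactors hp
    have hpa := Nat.dvd_of_mem_primeFactors hp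
    by_contra hpb
    have h1 : p ^ 2 ∣ m := hm.2 p hpp (by rw [← hab]; exact hpa.mul_left _)
    rw [← hab] at h1
    have hcop : Nat.Coprime (p ^ 2) (b ^ 2) :=
      Nat.Coprime.pow _ _ ((Nat.Prime.coprime_iff_not_dvd hpp).2 hpb)
    have h2 : p ^ 2 ∣ a := hcop.dvd_of_dvd_mul_left h1
    rw [pow_two] at h2
    have h3 := hsq p h2
    exact hpp.one_lt.ne' (Nat.isUnit_iff.1 h3)
  obtain ⟨c, rfl⟩ := hdvd
  refine ⟨c, a, Nat.pos_of_mul_pos_left hb, ha, ?_⟩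
  rw [← hab]
  ring

/-- the sum of `m ^ (-s)` over the squareful numbers converges for `s > 1 / 2` -/
theorem summable_squareful {s : ℝ} (hs : 1 / 2 < s) :
    Summable fun m : {m : ℕ | Squareful m} => ((m : ℕ) : ℝ) ^ (-s) := by
  have h2 : Summable fun a : ℕ => ((a : ℝ) ^ 2) ^ (-s) := by
    refine (Real.summable_nat_rpow (p := -(2 * s))).2 (by linarith) |>.congr fun a => ?_
    rw [← Real.rpow_natCast, ← Real.rpow_mul (Nat.cast_nonneg _)]
    congr 1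
    push_cast
    ring
  have h3 : Summable fun b : ℕ => ((b : ℝ) ^ 3) ^ (-s) := by
    refine (Real.summable_nat_rpow (p := -(3 * s))).2 (by linarith) |>.congr fun a => ?_
    rw [← Real.rpow_natCast, ← Real.rpow_mul (Nat.cast_nonneg _)]
    congr 1
    push_cast
    ring
  have h4 : Summable fun x : ℕ × ℕ => ((x.1 : ℝ) ^ 2) ^ (-s) * ((x.2 : ℝ) ^ 3) ^ (-s) :=
    h2.mul_of_nonneg h3 (fun _ => by positivity) (fun _ => by positivity)
  choose a b ha hb hab using fun m : {m : ℕ | Squareful m} => Squareful.exists_eq m.2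
  have hinj : Function.Injective fun m : {m : ℕ | Squareful m} => (a m, b m) := by
    intro m m' h
    simp only [Prod.mk.injEq] at h
    apply Subtype.ext
    rw [hab m, hab m', h.1, h.2]
  refine (h4.comp_injective hinj).congr fun m => ?_
  simp only [Function.comp_apply]
  rw [← Real.mul_rpow (by positivity) (by positivity)]
  congr 1
  have := hab m
  exact_mod_cast this.symm

/-- **Theorem.** Let `𝓜` be a set of positive integers with a convergent sum of the `m ^ (-s)` for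
some `s < 1`, `X m` random residues modulo `m`, each value of which has probability at most `C / m`
(no independence is assumed), and `φ m` any maps from the pairs of integers to the residues modulo
`m`.

(1) Almost surely, for every `τ > 0` there is `M` such that for all `m` in `𝓜` all the abc-triples
`(a, b, c)` with `c ^ τ ≤ m` and `φ m (a, c) = X m` satisfy `c < rad (abc) ^ M`.

(2) If `M ≥ 1` and `g M < (1 - s) τ`, then almost surely there are only finitely many pairs of `m` in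
`𝓜` and an abc-triple with `c ^ τ ≤ m`, `φ m (a, c) = X m` and `c ≥ rad (abc) ^ M`.

(3) The set of the squareful numbers satisfies the condition for every `s > 1 / 2`. -/
theorem result :
    (∀ (𝓜 : Set ℕ) (s C : ℝ) (Ω : Type) [MeasurableSpace Ω] (P : Measure Ω)
      (X : ∀ m : ℕ, Ω → ZMod m) (φ : ∀ m : ℕ, ℕ × ℕ → ZMod m),
      (∀ m ∈ 𝓜, 0 < m) → s < 1 → (Summable fun m : 𝓜 => ((m : ℕ) : ℝ) ^ (-s)) →
      (∀ m ∈ 𝓜, ∀ r : ZMod m, P {ω | X m ω = r} ≤ ENNReal.ofReal (C / m)) →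
      (∀ᵐ ω ∂P, ∀ τ : ℝ, 0 < τ → ∃ M : ℝ, ∀ m ∈ 𝓜, ∀ t : ℕ × ℕ, IsTriple t →
        (t.2 : ℝ) ^ τ ≤ m → φ m t = X m ω → Good M t) ∧
      (∀ M τ : ℝ, 1 ≤ M → g M < (1 - s) * τ →
        ∀ᵐ ω ∂P, {x : ℕ × (ℕ × ℕ) | (x.1 ∈ 𝓜 ∧ IsTriple x.2 ∧ (x.2.2 : ℝ) ^ τ ≤ x.1 ∧
          φ x.1 x.2 = X x.1 ω) ∧ ¬ Good M x.2}.Finite)) ∧
    (∀ s : ℝ, 1 / 2 < s → Summable fun m : {m : ℕ | Squareful m} => ((m : ℕ) : ℝ) ^ (-s)) :=
  ⟨fun _ _ _ _ _ _ _ _ h0 hs hsum hX => ⟨part_one h0 hs hsum hX,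
    fun _ _ hM hg => part_two h0 hs hsum hX hM hg⟩, fun _ hs => summable_squareful hs⟩

end Pool.Agent.Results.MP_2ec8a3_nt.RandomCongruences
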