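import Pool.Agent.Y854.AB.Count

/-!
# Oesterlé's weak form of the abc conjecture in short windows around a thin sequence

Let `v ≥ 1` be any sequence with exponent of convergence at most `τ` (for `v_n = n ^ κ` this is
`1 / κ`, for `v_n = b ^ n` it is `0`) and `0 ≤ θ < 1`. For all `α > 0` outside a set of Hausdorff
dimension at most `τ / (1 - θ)`, so outside a set of dimension zero for `v_n = b ^ n`, there is for
every `A` an `M` such that EVERY abc-triple with a member `m` in one of the windows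
`|m - α v_n| ≤ v_n ^ θ` and with `c ≤ m ^ A` satisfies `c < rad (abc) ^ M`. For a given `M ≥ 1` this
holds in all but finitely many windows for all `α` outside a set of dimension at most
`(A g (M) + τ) / (1 - θ)` with `g (M) = 4 / (7 M)` for `M ≥ 3/2`.
-/

set_option autoImplicit false

namespace Pool.Agent.Results.MP_2ec8a3_nt.WindowsWeakForm

open Finset Filter Topology

/-- the product of the primes dividing `n` -/
def rad (n : ℕ) : ℕ := ∏ p ∈ n.primeFactors, p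

/-- every abc-triple `(a, b, c)`, `c = a + b ≤ m ^ A`, one of whose members is `m` satisfies
`c < rad (abc) ^ M` -/
def Good (A M : ℝ) (m : ℕ) : Prop :=
  ∀ a b : ℕ, 0 < a → 0 < b → Nat.Coprime a b → (a = m ∨ b = m ∨ a + b = m) →
    ((a + b : ℕ) : ℝ) ≤ (m : ℝ) ^ A → ((a + b : ℕ) : ℝ) < (rad (a * b * (a + b)) : ℝ) ^ M

/-- the exponent of convergence of the sequence `v` is at most `τ` -/
def ExpLe (v : ℕ → ℝ) (τ : ℝ) : Prop := ∀ t : ℝ, τ < t → Summable (fun n : ℕ => (v n) ^ (-t))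

/-- `15 / 28` for `M = 1`, decreasing, and `4 / (7 M)` for `M ≥ 3 / 2` -/
noncomputable def g (M : ℝ) : ℝ := if M < 3 / 2 then (13 + 2 * M) / (28 * M) else 4 / (7 * M)

lemma Fx_eq (M : ℝ) (hM : 1 ≤ M) : Pool.Agent.W221.ABC7.Fx (1 / M) = g M := by
  have hM0 : 0 < M := by linarith
  unfold Pool.Agent.W221.ABC7.Fx g
  by_cases h : M < 3 / 2
  · have h1 : ¬ (1 / M ≤ 2 / 3) := by
      rw [not_le, lt_div_iff₀ hM0]
      linarith
    have h2 : 1 / M ≤ 1 := by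
      rw [div_le_one hM0]
      exact hM
    rw [if_neg h1, if_pos h2, if_pos h]
    field_simp
  · have h1 : 1 / M ≤ 2 / 3 := by
      rw [div_le_iff₀ hM0]
      linarith
    rw [if_pos h1, if_neg h]
    field_simp

lemma rad_pos (n : ℕ) : 0 < rad n :=
  Finset.prod_pos fun _ hp => (Nat.prime_of_mem_primeFactors hp).pos

lemma two_le_rad {a b : ℕ} (ha : 0 < a) (hb : 0 < b) : 2 ≤ rad (a * b * (a + b)) := by
  have h4 : 1 < a * b * (a + b) := by nlinarith [Nat.mul_pos ha hb]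
  obtain ⟨q, hq, hqd⟩ := Nat.exists_prime_and_dvd h4.ne'
  have hmem : q ∈ (a * b * (a + b)).primeFactors := Nat.mem_primeFactors.mpr ⟨hq, hqd, by omega⟩
  exact hq.two_le.trans (Nat.le_of_dvd (rad_pos _) (Finset.dvd_prod_of_mem _ hmem))

lemma good_of (A M : ℝ) (hM : 0 < M) (m : ℕ) (h : m ∉ Pool.Agent.Y854.AB.Bad 1 (1 / M) A) :
    Good A M m := by
  intro a b ha hb hab hmem hht
  have hr : (0 : ℝ) < (rad (a * b * (a + b)) : ℝ) := by exact_mod_cast rad_pos _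
  have hc0 : (0 : ℝ) ≤ ((a + b : ℕ) : ℝ) := Nat.cast_nonneg _
  have hbig : 1 * ((a + b : ℕ) : ℝ) ^ (1 / M) < (rad (a * b * (a + b)) : ℝ) := by
    by_contra hcon
    push Not at hcon
    exact h ⟨a, b, ha, hb, hab, hmem, hht, hcon⟩
  rw [one_mul] at hbig
  calc ((a + b : ℕ) : ℝ) = (((a + b : ℕ) : ℝ) ^ (1 / M)) ^ M := by
        rw [← Real.rpow_mul hc0, one_div_mul_cancel hM.ne', Real.rpow_one]
    _ < (rad (a * b * (a + b)) : ℝ) ^ M := Real.rpow_lt_rpow (by positivity) hbig hM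

lemma Good.mono {A A' M M' : ℝ} {m : ℕ} (hA : A' ≤ A) (hM : M ≤ M') (h : Good A M m) :
    Good A' M' m := by
  intro a b ha hb hab hmem hht
  have hm : 1 ≤ m := by omega
  have hm' : (1 : ℝ) ≤ m := by exact_mod_cast hm
  have h1 := h a b ha hb hab hmem (hht.trans (Real.rpow_le_rpow_of_exponent_le hm' hA))
  have h2 : (1 : ℝ) ≤ (rad (a * b * (a + b)) : ℝ) := by exact_mod_cast rad_pos _
  exact h1.trans_le (Real.rpow_le_rpow_of_exponent_le h2 hM)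

/-- finitely many integers `m` -/
lemma good_small (A : ℝ) (B : ℕ) : ∃ M : ℝ, ∀ m : ℕ, m ≤ B → Good A M m := by
  obtain ⟨M, hM⟩ := pow_unbounded_of_one_lt (((B : ℝ) + 1) ^ |A|) (one_lt_two : (1 : ℝ) < 2)
  refine ⟨M, fun m hm a b ha hb hab hmem hht => ?_⟩
  have hm1 : 1 ≤ m := by omega
  have hm' : (1 : ℝ) ≤ m := by exact_mod_cast hm1
  have hmB : (m : ℝ) ≤ (B : ℝ) + 1 := by
    have : (m : ℝ) ≤ B := by exact_mod_cast hm
    linarith
  have h2 : (2 : ℝ) ≤ (rad (a * b * (a + b)) : ℝ) := by exact_mod_cast two_le_rad ha hb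
  calc ((a + b : ℕ) : ℝ) ≤ (m : ℝ) ^ A := hht
    _ ≤ (m : ℝ) ^ |A| := Real.rpow_le_rpow_of_exponent_le hm' (le_abs_self A)
    _ ≤ ((B : ℝ) + 1) ^ |A| := Real.rpow_le_rpow (by linarith) hmB (abs_nonneg A)
    _ < 2 ^ M := hM
    _ = (2 : ℝ) ^ (M : ℝ) := (Real.rpow_natCast _ _).symm
    _ ≤ (rad (a * b * (a + b)) : ℝ) ^ (M : ℝ) :=
        Real.rpow_le_rpow (by norm_num) h2 (Nat.cast_nonneg M)

theorem part_one (v : ℕ → ℝ) (τ A θ M : ℝ) (hv : ∀ n, 1 ≤ v n) (hτ : 0 ≤ τ) (hE : ExpLe v τ)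
    (hA : 1 ≤ A) (hθ1 : θ < 1) (hM : 1 ≤ M) :
    ∃ E : Set ℝ, dimH E ≤ ENNReal.ofReal ((A * g M + τ) / (1 - θ)) ∧ ∀ α : ℝ, 0 < α → α ∉ E →
      ∃ n₀ : ℕ, ∀ n : ℕ, n₀ ≤ n → ∀ m : ℕ, |(m : ℝ) - α * v n| ≤ (v n) ^ θ → Good A M m := by
  have hM0 : 0 < M := by linarith
  obtain ⟨E, h1, h2⟩ := Pool.Agent.Y854.AB.win 1 (1 / M) A (by positivity) (by linarith) hv hτ hE hθ1
  rw [Fx_eq M hM] at h1
  refine ⟨E, h1, fun α hα hαE => ?_⟩
  obtain ⟨n₀, hn⟩ := h2 α hα hαE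
  exact ⟨n₀, fun n hn1 m hm => good_of A M hM0 _ (hn n hn1 m hm).2⟩

theorem part_two (v : ℕ → ℝ) (τ θ : ℝ) (hv : ∀ n, 1 ≤ v n) (hτ : 0 ≤ τ) (hE : ExpLe v τ)
    (hθ1 : θ < 1) :
    ∃ E : Set ℝ, dimH E ≤ ENNReal.ofReal (τ / (1 - θ)) ∧ ∀ α : ℝ, 0 < α → α ∉ E → ∀ A : ℝ,
      ∃ M : ℝ, ∀ n m : ℕ, |(m : ℝ) - α * v n| ≤ (v n) ^ θ → Good A M m := by
  have hθ0 : 0 < 1 - θ := by linarith
  have h : ∀ k j : ℕ, ∃ E : Set ℝ,
      dimH E ≤ ENNReal.ofReal ((((k : ℝ) + 1) * g ((j : ℝ) + 2) + τ) / (1 - θ)) ∧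
      ∀ α : ℝ, 0 < α → α ∉ E → ∃ n₀ : ℕ, ∀ n : ℕ, n₀ ≤ n → ∀ m : ℕ,
        |(m : ℝ) - α * v n| ≤ (v n) ^ θ → Good ((k : ℝ) + 1) ((j : ℝ) + 2) m := fun k j =>
    part_one v τ ((k : ℝ) + 1) θ ((j : ℝ) + 2) hv hτ hE
      (by have : (0 : ℝ) ≤ k := Nat.cast_nonneg k
          linarith) hθ1 (by have : (0 : ℝ) ≤ j := Nat.cast_nonneg j
                            linarith)
  choose E hdim hgood using h
  refine ⟨⋃ k, ⋂ j, E k j, ?_, ?_⟩
  · rw [dimH_iUnion]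
    refine iSup_le fun k => ?_
    have hlim : Tendsto (fun j : ℕ =>
        ENNReal.ofReal ((((k : ℝ) + 1) * g ((j : ℝ) + 2) + τ) / (1 - θ))) atTop
        (𝓝 (ENNReal.ofReal (τ / (1 - θ)))) := by
      apply ENNReal.tendsto_ofReal
      have h1 : Tendsto (fun j : ℕ => g ((j : ℝ) + 2)) atTop (𝓝 0) := by
        have h2 : Tendsto (fun j : ℕ => (4 / 7) * ((j : ℝ) + 2)⁻¹) atTop (𝓝 ((4 / 7) * 0)) := by
          apply Tendsto.const_mul
          apply tendsto_inv_atTop_zero.comp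
          exact tendsto_atTop_add_const_right _ _ tendsto_natCast_atTop_atTop
        rw [mul_zero] at h2
        refine h2.congr fun j => ?_
        have h3 : ¬ ((j : ℝ) + 2 < 3 / 2) := by
          have : (0 : ℝ) ≤ j := Nat.cast_nonneg j
          rw [not_lt]
          linarith
        have h4 : (j : ℝ) + 2 ≠ 0 := by
          have : (0 : ℝ) ≤ j := Nat.cast_nonneg j
          positivity
        unfold g
        rw [if_neg h3]
        field_simp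
      have h5 : Tendsto (fun j : ℕ => (((k : ℝ) + 1) * g ((j : ℝ) + 2) + τ) / (1 - θ)) atTop
          (𝓝 ((((k : ℝ) + 1) * 0 + τ) / (1 - θ))) :=
        ((h1.const_mul _).add_const _).div_const _
      rwa [mul_zero, zero_add] at h5
    exact ge_of_tendsto' hlim fun j => (dimH_mono (Set.iInter_subset _ j)).trans (hdim k j)
  · intro α hα hαE A
    obtain ⟨k, hk⟩ := exists_nat_ge A
    have h1 : α ∉ ⋂ j, E k j := fun hcon => hαE (Set.mem_iUnion.2 ⟨k, hcon⟩)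
    rw [Set.mem_iInter] at h1
    push Not at h1
    obtain ⟨j, hj⟩ := h1
    obtain ⟨n₀, hn₀⟩ := hgood k j α hα hj
    -- the finitely many remaining windows
    obtain ⟨B, hB⟩ : ∃ B : ℕ, ∀ n < n₀, ∀ m : ℕ, |(m : ℝ) - α * v n| ≤ (v n) ^ θ → m ≤ B := by
      refine ⟨(Finset.range n₀).sup fun n => ⌈α * v n + (v n) ^ θ⌉₊, fun n hn m hm => ?_⟩
      have h2 : (m : ℝ) ≤ α * v n + (v n) ^ θ := by
        have := (abs_le.mp hm).2
        linarith
      have h3 : m ≤ ⌈α * v n + (v n) ^ θ⌉₊ := by exact_mod_cast h2.trans (Nat.le_ceil _)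
      exact h3.trans (Finset.le_sup (f := fun n => ⌈α * v n + (v n) ^ θ⌉₊)
        (Finset.mem_range.mpr hn))
    obtain ⟨M', hM'⟩ := good_small A B
    refine ⟨max ((j : ℝ) + 2) M', fun n m hm => ?_⟩
    rcases Nat.lt_or_ge n n₀ with hn | hn
    · exact (hM' m (hB n hn m hm)).mono le_rfl (le_max_right _ _)
    · exact (hn₀ n hn m hm).mono (by linarith) (le_max_left _ _)

/-- **Theorem.** (1) For all sequences `v ≥ 1` of exponent of convergence at most `τ ≥ 0` and all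
`0 ≤ θ < 1` there is a set `E` of Hausdorff dimension at most `τ / (1 - θ)` such that for each
`α > 0` outside `E` and each `A` there is `M` such that all the integers `m` with
`|m - α v_n| ≤ v_n ^ θ` for some `n` are `Good A M`. (2) For each `A ≥ 1` and `M ≥ 1` there is a set
`E` of dimension at most `(A g(M) + τ) / (1 - θ)` such that for each `α > 0` outside `E` and all but
finitely many `n` all the integers `m` with `|m - α v_n| ≤ v_n ^ θ` are `Good A M`. (3) The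
sequences `v_n = (n + 1) ^ κ` and `v_n = b ^ n` have exponent of convergence at most `1 / κ` and
`0`. -/
theorem result :
    (∀ (v : ℕ → ℝ) (τ θ : ℝ), (∀ n, 1 ≤ v n) → 0 ≤ τ → ExpLe v τ → 0 ≤ θ → θ < 1 →
      ∃ E : Set ℝ, dimH E ≤ ENNReal.ofReal (τ / (1 - θ)) ∧ ∀ α : ℝ, 0 < α → α ∉ E → ∀ A : ℝ,
        ∃ M : ℝ, ∀ n m : ℕ, |(m : ℝ) - α * v n| ≤ (v n) ^ θ → Good A M m) ∧
    (∀ (v : ℕ → ℝ) (τ A θ M : ℝ), (∀ n, 1 ≤ v n) → 0 ≤ τ → ExpLe v τ → 1 ≤ A → 0 ≤ θ → θ < 1 →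
      1 ≤ M →
      ∃ E : Set ℝ, dimH E ≤ ENNReal.ofReal ((A * g M + τ) / (1 - θ)) ∧ ∀ α : ℝ, 0 < α → α ∉ E →
        ∃ n₀ : ℕ, ∀ n : ℕ, n₀ ≤ n → ∀ m : ℕ, |(m : ℝ) - α * v n| ≤ (v n) ^ θ → Good A M m) ∧
    (∀ κ : ℝ, 0 < κ → ExpLe (fun n : ℕ => ((n : ℝ) + 1) ^ κ) (1 / κ)) ∧
    (∀ b : ℝ, 1 < b → ExpLe (fun n : ℕ => b ^ n) 0) :=
  ⟨fun v τ θ hv hτ hE _ hθ1 => part_two v τ θ hv hτ hE hθ1,
    fun v τ A θ M hv hτ hE hA _ hθ1 hM => part_one v τ A θ M hv hτ hE hA hθ1 hM,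
    fun κ hκ => Pool.Agent.Y854.GM.expLe_pow κ hκ, fun b hb => Pool.Agent.Y854.GM.expLe_geom b hb⟩

end Pool.Agent.Results.MP_2ec8a3_nt.WindowsWeakForm
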